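import Pool.Agent.R941.AE.Main

/-!
Left convolution on `ℓ²(G)` and the operators of the library; consequences for elements.
-/

set_option autoImplicit false
set_option linter.unusedSectionVars false

open scoped InnerProductSpace ENNReal ComplexConjugate
open Filter Topology

namespace Pool.Agent.R941.AE

open Pool.Agent.W656.VA
open Pool.Agent.TH25.AD
open Pool.Agent.H80R2
open Pool.Agent.H80R2.BC (L2 GMat vdim IsTr LInv Equi act kerA Coef pt vals)
open Pool.Agent.H812R3

/-- all square-summable `f` with `α * f = 0` -/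
def kern {G : Type} [Group G] (α : G →₀ ℂ) : Set (lp (fun _ : G => ℂ) 2) :=
  {f | ∀ g : G, ∑ k ∈ α.support, α k * f (k⁻¹ * g) = 0}

open Classical in
/-- the von Neumann dimension of the kernel of left convolution -/
noncomputable def kdim {G : Type} [Group G] (α : G →₀ ℂ) : ℝ :=
  1 - Metric.infDist (lp.single 2 (1 : G) (1 : ℂ)) (kern α) ^ 2

variable {G : Type} [Group G]

/-- inversion -/
def ivE (G : Type) [Group G] : (Unit × G) ≃ G where
  toFun p := p.2⁻¹
  invFun g := ((), g⁻¹)
  left_inv := by rintro ⟨⟨⟩, g⟩; simp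
  right_inv := by intro g; simp

/-- the isometry `f ↦ (g ↦ f (g⁻¹))` -/
noncomputable def iv (G : Type) [Group G] : L2 G →L[ℂ] L2 (Unit × G) :=
  KP.pull (ivE G) (ivE G).injective

theorem iv_apply (f : L2 G) (g : G) : iv G f ((), g) = f g⁻¹ := rfl

theorem isometry_iv : Isometry (iv G) := by
  apply AddMonoidHomClass.isometry_of_norm
  intro f
  have h : ‖iv G f‖ ^ 2 = ‖f‖ ^ 2 := by
    rw [KP.norm_sq_eq, KP.norm_sq_eq]
    exact (ivE G).tsum_eq (fun y => ‖f y‖ ^ 2)
  exact (sq_eq_sq₀ (norm_nonneg _) (norm_nonneg _)).1 h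

theorem surj_iv (x : L2 (Unit × G)) : ∃ f : L2 G, iv G f = x := by
  refine ⟨KP.pull (ivE G).symm (ivE G).symm.injective x, ?_⟩
  ext ⟨⟨⟩, g⟩
  rw [iv_apply]
  show x ((), (g⁻¹)⁻¹) = x ((), g)
  rw [inv_inv]

theorem image_kern (α : G →₀ ℂ) :
    iv G '' kern α = (kerA (el1 α) : Set (L2 (Unit × G))) := by
  have key : ∀ (f : L2 G) (g : G), act (el1 α) (iv G f) () g
      = ∑ k ∈ α.support, α k * f (k⁻¹ * g⁻¹) := by
    intro f g
    unfold act el1
    rw [Fintype.sum_unique, Finsupp.sum]
    refine Finset.sum_congr rfl fun k _ => ?_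
    have : iv G f ((), g * k) = f (k⁻¹ * g⁻¹) := by
      rw [iv_apply, mul_inv_rev]
    rw [← this]
  ext x
  constructor
  · rintro ⟨f, hf, rfl⟩
    rintro ⟨⟩ g
    rw [key]
    exact hf g⁻¹
  · intro hx
    obtain ⟨f, rfl⟩ := surj_iv x
    refine ⟨f, fun g => ?_, rfl⟩
    have := hx () g⁻¹
    rw [key, inv_inv] at this
    exact this

theorem kdim_eq (α : G →₀ ℂ) : kdim α = 1 - rk (el1 α) := by
  classical
  have h1 : rk (el1 α) = 1 - vdim (kerA (el1 α)) := by
    unfold rk
    simp
  rw [h1, sub_sub_cancel]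
  unfold kdim vdim
  rw [Fintype.sum_unique, ← image_kern]
  have h2 : BC.dl G (default : Unit) = iv G (lp.single 2 (1 : G) (1 : ℂ)) := by
    rw [dl_eq]
    ext ⟨⟨⟩, g⟩
    rw [iv_apply]
    by_cases hg : g = 1
    · subst hg
      rw [inv_one]
      show (de ((), (1 : G))) ((), 1) = _
      rw [de_apply_self, lp.single_apply_self]
    · have h3 : (de ((), (1 : G)) : L2 (Unit × G)) ((), g) = 0 :=
        de_apply_ne (by simpa using hg)
      have h4 : (lp.single 2 (1 : G) (1 : ℂ) : L2 G) g⁻¹ = 0 := by
        rw [lp.single_apply_ne]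
        simpa using hg
      exact h3.trans h4.symm
  rw [h2, Metric.infDist_image isometry_iv]

theorem rk_el_zero : rk (el1 (0 : G →₀ ℂ)) = 0 := by
  unfold rk
  have : kerA (el1 (0 : G →₀ ℂ)) = ⊤ := kerA_zero
  rw [this, vdim_top]
  ring

theorem rk_el_pos {α : G →₀ ℂ} (h : α ≠ 0) : 0 < rk (el1 α) := by
  rcases (rk_nonneg (el1 α)).eq_or_lt with h0 | h0
  · exfalso
    apply h
    have h1 : vdim (kerA (el1 α)) = Fintype.card Unit := by
      unfold rk at h0
      linarith
    have h2 : kerA (el1 α) = ⊤ := by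
      refine eq_of_vdim (isClosed_kerA _) (linv_kerA _) isClosed_univ
        (fun _ _ _ _ _ => trivial) le_top ?_
      rw [vdim_top, h1]
    ext g
    have h3 : (de ((), g) : L2 (Unit × G)) ∈ kerA (el1 α) := by
      rw [h2]
      trivial
    have h4 := h3 () 1
    unfold act el1 at h4
    rw [Fintype.sum_unique, Finsupp.sum] at h4
    by_cases hg : g ∈ α.support
    · rw [Finset.sum_eq_single g] at h4
      · have e : (de ((), g) : L2 (Unit × G)) (default, 1 * g) = 1 := by
          rw [one_mul]
          exact de_apply_self _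
        rw [e, mul_one] at h4
        exact h4
      · intro k _ hk
        have e : (de ((), g) : L2 (Unit × G)) (default, 1 * k) = 0 := by
          rw [one_mul]
          exact de_apply_ne (by
            intro h5
            exact hk (congrArg Prod.snd h5))
        rw [e, mul_zero]
      · intro h5
        exact absurd hg h5
    · simpa using hg
  · exact h0

theorem rk_el_push {G' : Type} [Group G'] (f : G →* G') (hf : Function.Injective f)
    (α : G →₀ ℂ) : rk (el1 (α.mapDomain f)) = rk (el1 α) := rk_push f hf (el1 α)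

theorem kdim_push {G' : Type} [Group G'] (f : G →* G') (hf : Function.Injective f)
    (α : G →₀ ℂ) : kdim (α.mapDomain f) = kdim α := by
  rw [kdim_eq, kdim_eq, rk_el_push f hf]

/-- restriction to the subgroup generated by the support -/
theorem exists_fg (α : G →₀ ℂ) : ∃ (K : Subgroup G) (β : K →₀ ℂ), Group.FG K ∧
    (∀ k, β k = α k) ∧ kdim β = kdim α := by
  classical
  set K := Subgroup.closure (α.support : Set G) with hK
  set β : K →₀ ℂ := α.comapDomain (Subtype.val : K → G) Subtype.val_injective.injOn with hβ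
  have hp : β.mapDomain (K.subtype : K → G) = α := by
    show Finsupp.mapDomain (Subtype.val : K → G)
      (α.comapDomain (Subtype.val : K → G) Subtype.val_injective.injOn) = α
    apply Finsupp.mapDomain_comapDomain _ Subtype.val_injective
    intro x hx
    exact ⟨⟨x, Subgroup.subset_closure hx⟩, rfl⟩
  refine ⟨K, β, Group.closure_finset_fg _, fun k => rfl, ?_⟩
  rw [← hp]
  exact (kdim_push K.subtype K.subtype_injective β).symm

end Pool.Agent.R941.AE
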