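import Pool.Agent.R941.AE.Mul

/-!
The ranks of the matrices of the machine: an interval of ranks.
-/

set_option autoImplicit false
set_option linter.unusedSectionVars false

open scoped InnerProductSpace ENNReal ComplexConjugate
open Filter Topology

namespace Pool.Agent.R941.AE

open Pool.Agent.W656.VA
open Pool.Agent.TH25.AD
open Pool.Agent.H80R2
open Pool.Agent.H80R2.BC (L2 GMat vdim IsTr LInv Equi act kerA Coef pt vals)
open Pool.Agent.H812R3

variable {ι κ ν ι' κ' ν' H : Type} [Group H] [Fintype ι] [Fintype κ] [Fintype ν] [Fintype ι']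
  [Fintype κ'] [Fintype ν']

/-- `r` is the rank of a matrix over `R[G]` -/
def RV (R : Subring ℂ) (G : Type) [Group G] (r : ℝ) : Prop :=
  ∃ (m n : ℕ) (A : GMat (Fin n) (Fin m) G), Coef R A ∧ rk A = r

theorem rv_of {R : Subring ℂ} (A : GMat κ ι H) (hA : Coef R A) : RV R H (rk A) := by
  refine ⟨Fintype.card ι, Fintype.card κ,
    ri (Fintype.equivFin κ).symm (Fintype.equivFin ι).symm A, ?_, ?_⟩
  · intro k i h
    exact hA _ _ _
  · unfold rk
    rw [vdim_ri, Fintype.card_fin]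

/-- `E` is defined over `R`, with `n` auxiliary columns and defect `d` -/
def DS (R : Subring ℂ) (E : Submodule ℂ (L2 (ι × H))) (n : ℕ) (d : ℝ) : Prop :=
  ∃ (κ ν : Type) (_ : Fintype κ) (_ : Fintype ν) (B : GMat κ ι H) (C : GMat κ ν H),
    Coef R B ∧ Coef R C ∧ Fintype.card ν = n ∧ vdim (kerA C) = d ∧
      ∀ x, x ∈ E ↔ op B x ∈ clo (op C)

theorem DS.rv {R : Subring ℂ} {E : Submodule ℂ (L2 (ι × H))} {n : ℕ} {d : ℝ} (h : DS R E n d) :
    RV R H (Fintype.card ι + n - d - vdim E) := by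
  obtain ⟨κ, ν, _, _, B, C, hB, hC, rfl, rfl, hE⟩ := h
  have e : E = pre B C := by
    ext x
    rw [hE, mem_pre]
  have h1 := rv_of (R := R) (sd B C) (coef_sd hB hC)
  have h2 : rk (sd B C) = Fintype.card ι + (Fintype.card ν : ℕ) - vdim (kerA C) - vdim E := by
    unfold rk
    rw [vdim_sd, e, Fintype.card_sum]
    push_cast
    ring
  rwa [h2] at h1

theorem DS.inf {R : Subring ℂ} {E E' : Submodule ℂ (L2 (ι × H))} {n n' : ℕ} {d d' : ℝ}
    (h : DS R E n d) (h' : DS R E' n' d') : DS R (E ⊓ E') (n + n') (d + d') := by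
  obtain ⟨κ, ν, _, _, B, C, hB, hC, hn, rfl, hE⟩ := h
  obtain ⟨κ', ν', _, _, B', C', hB', hC', hn', rfl, hE'⟩ := h'
  refine ⟨κ ⊕ κ', ν ⊕ ν', inferInstance, inferInstance, BC.stack B B', bd C C',
    coef_stack hB hB', coef_bd hC hC', ?_, vdim_bd C C', ?_⟩
  · rw [Fintype.card_sum, hn, hn']
  · intro x
    rw [Submodule.mem_inf, hE, hE', mem_clo_bd, pl1_stack, pl2_stack]

theorem DS.comap {R : Subring ℂ} {E : Submodule ℂ (L2 (ι' × H))} {n : ℕ} {d : ℝ}
    (h : DS R E n d) {X : GMat ι' ι H} (hX : Coef R X) :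
    DS R (E.comap (op X : L2 (ι × H) →ₗ[ℂ] L2 (ι' × H))) n d := by
  obtain ⟨κ, ν, _, _, B, C, hB, hC, hn, rfl, hE⟩ := h
  refine ⟨κ, ν, inferInstance, inferInstance, mulM B X, C, coef_mulM hB hX, hC, hn, rfl, ?_⟩
  intro x
  rw [op_mulM]
  exact hE (op X x)

theorem ds_lampP {R : Subring ℂ} {A : GMat κ ι H} {T : GMat Unit ι H} (hA : Coef R A)
    (hT : Coef R T) (h : kerA A ⊓ kerA T = ⊥) : DS R (lampP A T) (Fintype.card ι) 0 := by
  set B : GMat (Unit ⊕ κ) Unit H := BC.stack (idM H) (fun _ _ => 0) with hB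
  set C : GMat (Unit ⊕ κ) ι H := BC.stack T A with hC
  have hkC : kerA C = ⊥ := by
    rw [hC, kerA_stack, inf_comm, h]
  have hkC0 : vdim (kerA C) = 0 := by rw [hkC, vdim_bot]
  have h1 : lampP A T ≤ pre B C := by
    apply Submodule.topologicalClosure_minimal _ _ (closed_pre B C)
    rintro _ ⟨s, hs, rfl⟩
    rw [mem_pre]
    have e : op B (op T s) = op C s := by
      apply ext_pl
      · rw [hB, hC, pl1_stack, pl1_stack, op_idM]
      · rw [hB, hC, pl2_stack, pl2_stack, op_zero]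
        have hs' : s ∈ kerA A := hs
        rw [kerA_eq, mem_kr] at hs'
        exact hs'.symm
    show op B (op T s) ∈ clo (op C)
    rw [e]
    exact mem_clo _ _
  have h2 : vdim (kerA (sd B C)) ≤ vdim (kerA A) := by
    have key : ∀ x ∈ kerA (sd B C), pl1 Unit ι H x = op T (pl2 Unit ι H x) ∧
        op A (pl2 Unit ι H x) = 0 := by
      intro x hx
      rw [kerA_eq, mem_kr, op_sd, sub_eq_zero] at hx
      constructor
      · have := congrArg (pl1 Unit κ H) hx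
        rwa [hB, hC, pl1_stack, pl1_stack, op_idM] at this
      · have := congrArg (pl2 Unit κ H) hx
        rw [hB, hC, pl2_stack, pl2_stack, op_zero] at this
        exact this.symm
    refine vdim_inj_le (isClosed_kerA _) (linv_kerA _) (pl2 Unit ι H) equi_pl2 (isClosed_kerA A)
      ?_ ?_
    · intro x hx
      rw [kerA_eq, mem_kr]
      exact (key x hx).2
    · intro x hx h0
      apply ext_pl
      · rw [(key x hx).1, h0, map_zero, map_zero]
      · rw [h0, map_zero]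
  rw [vdim_sd, hkC0, add_zero, ← vdim_lampP A T h] at h2
  have h3 := eq_of_vdim (closed_lampP A T) (linv_lampP A T) (closed_pre B C) (linv_pre B C) h1 h2
  refine ⟨Unit ⊕ κ, ι, inferInstance, inferInstance, B, C, ?_, coef_stack hT hA, rfl, hkC0, ?_⟩
  · apply coef_stack
    · intro k i g
      exact coef_single _ _ R.one_mem _
    · intro k i g
      exact R.zero_mem
  · intro x
    rw [h3, mem_pre]

theorem ds_lampP_orth {R : Subring ℂ} (hR : ∀ c ∈ R, conj c ∈ R) {A : GMat κ ι H}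
    {T : GMat Unit ι H} (hA : Coef R A) (hT : Coef R T) :
    DS R (lampP A T)ᗮ (Fintype.card κ) (Fintype.card κ - Fintype.card ι + vdim (kerA A)) := by
  refine ⟨ι, κ, inferInstance, inferInstance, st T, st A, coef_st hR hT, coef_st hR hA, rfl,
    ?_, ?_⟩
  · have h := vdim_ker_adjoint (op A) (equi_op A)
    rw [← op_st, ← kerA_eq, ← kerA_eq] at h
    linarith
  · intro y
    rw [op_st, op_st]
    have h1 : clo (ContinuousLinearMap.adjoint (op A)) = (kerA A)ᗮ := by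
      rw [kerA_eq]
      exact (ContinuousLinearMap.orthogonal_ker (op A)).symm
    rw [h1, lampP, Submodule.orthogonal_closure, Submodule.mem_orthogonal,
      Submodule.mem_orthogonal]
    constructor
    · intro h s hs
      rw [ContinuousLinearMap.adjoint_inner_right]
      exact h _ ⟨s, hs, rfl⟩
    · rintro h _ ⟨s, hs, rfl⟩
      have := h s hs
      rw [ContinuousLinearMap.adjoint_inner_right] at this
      exact this

theorem ds_Sol (M : Mach H) {R : Subring ℂ} {n k : ℕ} {d : ℝ} (hP : DS R M.P n 0)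
    (hN : DS R M.Pᗮ k d) : DS R M.Sol (4 * k + 4 * n) (4 * d) := by
  have hZ : ∀ i : Fin 4, DS R ((M.Pᗮ).comap
      (op (rw2 i i 1 M.f) : L2 (Fin 4 × H) →ₗ[ℂ] L2 (Unit × H))) k d :=
    fun i => hN.comap (coef_rw2 _ _ _ _)
  have h1 : DS R ((M.P).comap
      (op (rw2 2 0 1 M.g) : L2 (Fin 4 × H) →ₗ[ℂ] L2 (Unit × H))) n 0 := hP.comap (coef_rw2 _ _ _ _)
  have h2 : DS R ((M.P).comap
      (op (rw2 3 1 1 M.g) : L2 (Fin 4 × H) →ₗ[ℂ] L2 (Unit × H))) n 0 := hP.comap (coef_rw2 _ _ _ _)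
  have h3 : DS R ((M.P).comap
      (op (rw2 1 0 M.f (M.f * M.h)) : L2 (Fin 4 × H) →ₗ[ℂ] L2 (Unit × H))) n 0 :=
    hP.comap (coef_rw2 _ _ _ _)
  have h4 : DS R ((M.P).comap
      (op (rw2 3 2 M.f (M.f * M.h)) : L2 (Fin 4 × H) →ₗ[ℂ] L2 (Unit × H))) n 0 :=
    hP.comap (coef_rw2 _ _ _ _)
  have h5 := ((((hZ 0).inf (hZ 1)).inf (hZ 2)).inf (hZ 3)).inf ((h1.inf h2).inf (h3.inf h4))
  have e1 : d + d + d + d + (0 + 0 + (0 + 0)) = 4 * d := by ring
  have e0 : k + k + k + k + (n + n + (n + n)) = 4 * k + 4 * n := by ring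
  rw [e1, e0] at h5
  have e2 : M.Sol = ((((M.Pᗮ).comap
      (op (rw2 0 0 1 M.f) : L2 (Fin 4 × H) →ₗ[ℂ] L2 (Unit × H)) ⊓ (M.Pᗮ).comap
      (op (rw2 1 1 1 M.f) : L2 (Fin 4 × H) →ₗ[ℂ] L2 (Unit × H))) ⊓ (M.Pᗮ).comap
      (op (rw2 2 2 1 M.f) : L2 (Fin 4 × H) →ₗ[ℂ] L2 (Unit × H))) ⊓ (M.Pᗮ).comap
      (op (rw2 3 3 1 M.f) : L2 (Fin 4 × H) →ₗ[ℂ] L2 (Unit × H))) ⊓ (((M.P).comap
      (op (rw2 2 0 1 M.g) : L2 (Fin 4 × H) →ₗ[ℂ] L2 (Unit × H)) ⊓ (M.P).comap
      (op (rw2 3 1 1 M.g) : L2 (Fin 4 × H) →ₗ[ℂ] L2 (Unit × H))) ⊓ ((M.P).comap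
      (op (rw2 1 0 M.f (M.f * M.h)) : L2 (Fin 4 × H) →ₗ[ℂ] L2 (Unit × H)) ⊓ (M.P).comap
      (op (rw2 3 2 M.f (M.f * M.h)) : L2 (Fin 4 × H) →ₗ[ℂ] L2 (Unit × H)))) := by
    ext x
    simp only [Submodule.mem_inf, Submodule.mem_comap, ContinuousLinearMap.coe_coe, op_rw2,
      U_one, U_mul, ← map_sub]
    rw [M.mem_Sol]
    have hz : ∀ i, (cj i x ∈ M.Z ↔ cj i x - U M.f (cj i x) ∈ M.Pᗮ) := fun i => Iff.rfl
    constructor
    · rintro ⟨k1, ⟨k2, k3⟩, k4, k5⟩
      exact ⟨⟨⟨⟨k1 0, k1 1⟩, k1 2⟩, k1 3⟩, ⟨k2, k3⟩, k4, k5⟩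
    · rintro ⟨⟨⟨⟨a0, a1⟩, a2⟩, a3⟩, ⟨k2, k3⟩, k4, k5⟩
      refine ⟨?_, ⟨k2, k3⟩, k4, k5⟩
      intro i
      fin_cases i
      · exact a0
      · exact a1
      · exact a2
      · exact a3
  rw [e2]
  exact h5

/-- **The ranks of the machine.** -/
theorem value_rk {R : Subring ℂ} (hR : ∀ c ∈ R, conj c ∈ R) {G : Type} [Group G] (hG : TF G)
    {ι κ : Type} [Fintype ι] [Fintype κ] (A : GMat κ ι G) (T : GMat Unit ι G) (hA : Coef R A)
    (hT : Coef R T) (h : kerA A ⊓ kerA T = ⊥) (h1 : vdim (kerA A) < 1) (S : Set ℕ)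
    [DecidablePred (· ∈ S)] :
    ∃ w : ℝ, HasSum (fun n : ℕ => if n ∈ S then (1 - vdim (kerA A)) ^ 2 * vdim (kerA A) ^ n else 0)
        w ∧ RV R (Hg G) (4 + 8 * Fintype.card ι - 4 * vdim (kerA A) - w) := by
  set A2 := BC.push (inc G) A with hA2
  set T2 := BC.push (inc G) T with hT2
  have hv : vdim (kerA A2) = vdim (kerA A) := vdim_push (inc G) inc_inj A
  have hbot : kerA A2 ⊓ kerA T2 = ⊥ := by
    rw [hA2, hT2, ← kerA_stack, ← push_stack]
    apply eq_bot_of_vdim (isClosed_kerA _) (linv_kerA _)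
    rw [vdim_push (inc G) inc_inj, kerA_stack, h, vdim_bot]
  have hsupp : ∀ (a : G →₀ ℂ), ∀ x ∈ (a.mapDomain (inc G)).support, x ∈ DIg G {0} := by
    classical
    intro a x hx
    have := Finsupp.mapDomain_support hx
    rw [Finset.mem_image] at this
    obtain ⟨y, _, rfl⟩ := this
    exact inc_mem y
  have hloc : Loc (DIg G {0}) (lampP A2 T2) :=
    loc_lampP _ (fun k i x hx => hsupp _ x hx) (fun k i x hx => hsupp _ x hx)
  set M := mach G S (lampP A2 T2) (closed_lampP A2 T2) hloc with hM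
  have hα : M.α = vdim (kerA A) := by
    rw [← hv]
    exact vdim_lampP A2 T2 hbot
  have hc1 := coef_push (inc G) A hA
  have hc2 := coef_push (inc G) T hT
  have d1 : DS R M.P (Fintype.card ι) 0 := ds_lampP hc1 hc2 hbot
  have d2 : DS R M.Pᗮ (Fintype.card κ) (Fintype.card κ - Fintype.card ι + vdim (kerA A2)) :=
    ds_lampP_orth hR hc1 hc2
  have d3 := (ds_Sol M d1 d2).rv
  have h3 := M.vdim_Sol (by rw [hα]; exact h1) S
    (fun n hn => mach_good S _ (closed_lampP A2 T2) hloc n hn) (by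
      intro n hn k hk hc
      refine mach_bad S _ (closed_lampP A2 T2) hloc n hn ?_
      have h4 := tf_Hg hG _ k hk hc
      have h5 := inv_mul_eq_one.1 h4
      exact h5.symm)
  rw [hα] at h3
  rw [hv, Fintype.card_fin] at d3
  push_cast at d3
  refine ⟨vdim M.Sol, h3, ?_⟩
  have e : (4 : ℝ) + (4 * (Fintype.card κ : ℝ) + 4 * (Fintype.card ι : ℝ)) -
      4 * ((Fintype.card κ : ℝ) - Fintype.card ι + vdim (kerA A)) - vdim M.Sol
      = 4 + 8 * Fintype.card ι - 4 * vdim (kerA A) - vdim M.Sol := by ring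
  rwa [e] at d3

end Pool.Agent.R941.AE
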