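import Pool.Agent.R941.AE.Int

/-!
All positive real numbers are ranks; elements.
-/

set_option autoImplicit false
set_option linter.unusedSectionVars false

open scoped InnerProductSpace ENNReal ComplexConjugate
open Filter Topology

namespace Pool.Agent.R941.AE

open Pool.Agent.W656.VA
open Pool.Agent.TH25.AD
open Pool.Agent.H80R2
open Pool.Agent.H80R2.BC (L2 GMat vdim IsTr LInv Equi act kerA Coef pt vals)
open Pool.Agent.H812R3

section

variable {ι κ ι' κ' G : Type} [Group G] [Fintype ι] [Fintype κ] [Fintype ι'] [Fintype κ']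
  {R : Subring ℂ}

theorem rk_nonneg (A : GMat κ ι G) : 0 ≤ rk A := by
  have := vdim_le_card (kerA A)
  unfold rk
  linarith

theorem RV.add {r s : ℝ} (hr : RV R G r) (hs : RV R G s) : RV R G (r + s) := by
  obtain ⟨m, n, A, hA, rfl⟩ := hr
  obtain ⟨m', n', A', hA', rfl⟩ := hs
  have h : rk (bd A A') = rk A + rk A' := by
    unfold rk
    rw [vdim_bd, Fintype.card_sum]
    push_cast
    ring
  rw [← h]
  exact rv_of _ (coef_bd hA hA')

theorem rv_zero : RV R G 0 := by
  refine ⟨0, 0, fun _ _ => 0, fun k => k.elim0, ?_⟩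
  unfold rk vdim
  simp

theorem RV.nsmul {r : ℝ} (hr : RV R G r) (n : ℕ) : RV R G (n * r) := by
  induction n with
  | zero => simpa using rv_zero
  | succ n ih =>
    have := ih.add hr
    have e : ((n : ℝ) * r + r) = ((n + 1 : ℕ) : ℝ) * r := by push_cast; ring
    rwa [e] at this

end

/-- the one by one matrix -/
def el1 {G : Type} (a : G →₀ ℂ) : GMat Unit Unit G := fun _ _ => a

/-- `r` is the rank of a matrix over `R[H]` for some `H` in the class -/
def RR (C : (G : Type) → [Group G] → Prop) (R : Subring ℂ) (r : ℝ) : Prop :=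
  ∃ (H : Type) (_ : Group H), C H ∧ RV R H r

variable {C : (G : Type) → [Group G] → Prop} {R : Subring ℂ}

theorem RR.nonneg {r : ℝ} (h : RR C R r) : 0 ≤ r := by
  obtain ⟨H, _, _, m, n, A, _, rfl⟩ := h
  exact rk_nonneg A

theorem RR.nsmul {r : ℝ} (h : RR C R r) (n : ℕ) : RR C R (n * r) := by
  obtain ⟨H, _, hH, h⟩ := h
  exact ⟨H, inferInstance, hH, h.nsmul n⟩

theorem RR.mul_el (hC : Cls C) {r : ℝ} (h : RR C R r) {G : Type} [Group G] (hG : C G)
    (a : G →₀ ℂ) (ha : ∀ g, a g ∈ R) : RR C R (r * rk (el1 a)) := by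
  obtain ⟨H, _, hH, m, n, A, hA, rfl⟩ := h
  refine ⟨H × G, inferInstance, hC.prod H G hH hG, ?_⟩
  have h1 := rv_of (R := R) (pr A a) (coef_pr hA ha)
  rwa [rk_pr] at h1

theorem RR.mul_pow (hC : Cls C) {r : ℝ} (h : RR C R r) {G : Type} [Group G] (hG : C G)
    (a : G →₀ ℂ) (ha : ∀ g, a g ∈ R) (n : ℕ) : RR C R (r * rk (el1 a) ^ n) := by
  induction n with
  | zero => simpa using h
  | succ n ih =>
    rw [pow_succ, ← mul_assoc]
    exact ih.mul_el hC hG a ha

/-- an interval of ranks -/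
theorem rr_interval (hC : Cls C) (hR : ∀ c ∈ R, conj c ∈ R) {α : ℝ} (h : VV C R α)
    (h1 : 1 / 2 ≤ α) (h2 : α < 1) : ∃ N : ℝ, ∀ r : ℝ, 0 ≤ r → r ≤ 1 - α → RR C R (N - r) := by
  classical
  obtain ⟨G, _, hG, hv⟩ := h
  obtain ⟨m, ι, κ, _, _, A, T, hA, hT, hAT, hvA⟩ := lamp_exists hv h2
  have hG' := hC.free G m hG
  have htf : TF (Monoid.Coprod G (FreeGroup (Fin m))) := hC.tf _ hG'
  refine ⟨4 + 8 * Fintype.card ι - 4 * vdim (kerA A), ?_⟩
  intro r hr0 hr1
  have h3 : 0 < 1 - α := by linarith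
  have h4 : (1 - α) ^ 2 ≠ 0 := by positivity
  have h5 := greedy h1 h2 (t := r / (1 - α) ^ 2) (by positivity) (by
    rw [div_le_div_iff₀ (by positivity) h3]
    nlinarith)
  set S : Set ℕ := {n | 1 ≤ rem α (r / (1 - α) ^ 2) n} with hS
  obtain ⟨w, hw, hval⟩ := value_rk hR htf A T hA hT hAT (by rw [hvA]; exact h2) S
  have h6 : HasSum (fun n : ℕ => if n ∈ S then (1 - vdim (kerA A)) ^ 2 * vdim (kerA A) ^ n
      else 0) r := by
    have h7 := h5.mul_left ((1 - α) ^ 2)
    have e1 : (1 - α) ^ 2 * (r / (1 - α) ^ 2) = r := by field_simp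
    rw [e1] at h7
    have e3 : (fun n : ℕ => if n ∈ S then (1 - α) ^ 2 * α ^ n else 0)
        = fun n : ℕ => (1 - α) ^ 2 * (if 1 ≤ rem α (r / (1 - α) ^ 2) n then α ^ n else 0) := by
      funext n
      by_cases hn : 1 ≤ rem α (r / (1 - α) ^ 2) n
      · rw [if_pos hn, if_pos (show n ∈ S from hn)]
      · rw [if_neg hn, if_neg (show n ∉ S from hn), mul_zero]
    rw [hvA, e3]
    exact h7
  rw [hw.unique h6] at hval
  exact ⟨_, inferInstance, hC.hg hG', hval⟩

/-- **All positive real numbers are ranks**, if some element has a rank between zero and one. -/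
theorem rr_all (hC : Cls C) (hR : ∀ c ∈ R, conj c ∈ R) {G : Type} [Group G] (hG : C G)
    (a : G →₀ ℂ) (ha : ∀ g, a g ∈ R) (h0 : 0 < rk (el1 a)) (h1 : rk (el1 a) < 1) (r : ℝ)
    (hr : 0 < r) : RR C R r := by
  set s := rk (el1 a) with hs
  -- the value one half
  have hv : VV C R (1 - s) := by
    refine ⟨G, inferInstance, hG, ?_⟩
    have h2 := val_of (R := R) (el1 a) (fun _ _ h => ha h)
    have e : vdim (kerA (el1 a)) = 1 - s := by
      rw [hs]
      unfold rk
      simp
    rwa [e] at h2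
  have hhalf : VV C R (1 / 2) :=
    VV.all hC hR hv (by linarith) (by linarith) (1 / 2) (by norm_num)
  obtain ⟨N, hN⟩ := rr_interval hC hR hhalf le_rfl (by norm_num)
  set u := N - 1 / 2 with hu
  have hu0 : 0 ≤ u := (hN (1 / 2) (by norm_num) (by norm_num)).nonneg
  have hint : ∀ t : ℝ, u ≤ t → t ≤ u + 1 / 2 → RR C R t := by
    intro t h3 h4
    have h5 := hN (N - t) (by linarith) (by linarith)
    rwa [sub_sub_cancel] at h5
  -- all large numbers
  have hlarge : ∀ t : ℝ, 0 < t → 2 * u * (u + 1 / 2) ≤ t → RR C R t := by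
    intro t ht0 ht
    set n := ⌈t / (u + 1 / 2)⌉₊ with hn
    have hd : 0 < u + 1 / 2 := by linarith
    have hn0 : 0 < n := Nat.ceil_pos.2 (by positivity)
    have hn0' : (0 : ℝ) < n := by exact_mod_cast hn0
    have h3 : t / (u + 1 / 2) ≤ n := Nat.le_ceil _
    have h4 : (n : ℝ) < t / (u + 1 / 2) + 1 := Nat.ceil_lt_add_one (by positivity)
    have h5 : t / n ≤ u + 1 / 2 := by
      rw [div_le_iff₀ hn0']
      rw [div_le_iff₀ hd] at h3
      linarith
    have h6 : u ≤ t / n := by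
      rw [le_div_iff₀ hn0']
      have h7 : u * n ≤ u * (t / (u + 1 / 2) + 1) := mul_le_mul_of_nonneg_left h4.le hu0
      have h8 : u * (t / (u + 1 / 2) + 1) ≤ t := by
        have e : u * (t / (u + 1 / 2) + 1) = (u * t + u * (u + 1 / 2)) / (u + 1 / 2) := by
          field_simp
        rw [e, div_le_iff₀ hd]
        nlinarith
      linarith
    have h9 := (hint (t / n) h6 h5).nsmul n
    have e : (n : ℝ) * (t / n) = t := by
      field_simp
    rwa [e] at h9
  -- all numbers
  set M := 2 * u * (u + 1 / 2) + 1 with hM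
  have hM0 : 0 < M := by positivity
  obtain ⟨n, hn⟩ := exists_pow_lt_of_lt_one (show 0 < r / M by positivity) h1
  have hsn : 0 < s ^ n := pow_pos h0 n
  have h10 : M ≤ r / s ^ n := by
    rw [le_div_iff₀ hsn]
    rw [lt_div_iff₀ hM0] at hn
    linarith
  have h11 := (hlarge (r / s ^ n) (by positivity) (by linarith)).mul_pow hC hG a ha n
  have e2 : r / s ^ n * s ^ n = r := by field_simp
  rwa [← hs, e2] at h11

/-- **All real numbers between zero and one are ranks of elements.** -/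
theorem el_all (hC : Cls C) (hR : ∀ c ∈ R, conj c ∈ R) {G : Type} [Group G] (hG : C G)
    (a : G →₀ ℂ) (ha : ∀ g, a g ∈ R) (h0 : 0 < rk (el1 a)) (h1 : rk (el1 a) < 1) (r : ℝ)
    (hr : 0 < r) (hr1 : r < 1) : ∃ (H : Type) (_ : Group H) (_ : C H) (b : H →₀ ℂ),
      (∀ g, b g ∈ R) ∧ rk (el1 b) = r := by
  obtain ⟨H, _, hH, m, n, A, hA, hAr⟩ := rr_all hC hR hG a ha h0 h1 r hr
  obtain ⟨e, he, her⟩ := exists_element hR A hA (by rw [hAr]; exact hr1)
  refine ⟨_, inferInstance, hC.free _ n (hC.free _ m hH), e () (), fun g => he () () g, ?_⟩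
  rw [← hAr, ← her]
  rfl

end Pool.Agent.R941.AE
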