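import Pool.Agent.R941.AE.Row

/-!
The rank of the product of a matrix and an element, over the direct product of the groups.
-/

set_option autoImplicit false
set_option linter.unusedSectionVars false

open scoped InnerProductSpace ENNReal ComplexConjugate
open Filter Topology

namespace Pool.Agent.R941.AE

open Pool.Agent.W656.VA
open Pool.Agent.TH25.AD
open Pool.Agent.H80R2
open Pool.Agent.H80R2.BC (L2 GMat vdim IsTr LInv Equi act kerA Coef)
open Pool.Agent.H812R3

variable {ι κ G G' : Type} [Group G] [Group G'] [Fintype ι] [Fintype κ]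

/-- `A ⊗ 1` -/
noncomputable def lf (G' : Type) [Group G'] (A : GMat κ ι G) :
    GMat (κ × Unit) (ι × Unit) (G × G') :=
  fun k i => (A k.1 i.1).mapDomain (fun g => (g, (1 : G')))

open Classical in
/-- `1 ⊗ a` -/
noncomputable def rt (ι G : Type) [Group G] (a : G' →₀ ℂ) :
    GMat (ι × Unit) (ι × Unit) (G × G') :=
  fun p q => if p = q then a.mapDomain (fun g => ((1 : G), g)) else 0

theorem act_lf (A : GMat κ ι G) (x : (ι × Unit) × (G × G') → ℂ) (k : κ) (g : G) (g' : G') :
    act (lf G' A) x (k, ()) (g, g') = act A (fun p => x ((p.1, ()), (p.2, g'))) k g := by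
  unfold act lf
  rw [Fintype.sum_prod_type]
  refine Finset.sum_congr rfl fun i _ => ?_
  rw [Fintype.sum_unique, Finsupp.sum_mapDomain_index]
  · simp only [Prod.mk_mul_mk, mul_one]
  · intro b; simp
  · intro b c d; ring

theorem act_rt (a : G' →₀ ℂ) (x : (ι × Unit) × (G × G') → ℂ) (i : ι × Unit) (g : G) (g' : G') :
    act (rt ι G a) x i (g, g') = a.sum fun h c => c * x (i, (g, g' * h)) := by
  classical
  unfold act rt
  rw [Finset.sum_eq_single i]
  · rw [if_pos rfl, Finsupp.sum_mapDomain_index]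
    · simp only [Prod.mk_mul_mk, mul_one]
    · intro b; simp
    · intro b c d; ring
  · intro j _ hj
    rw [if_neg (fun h => hj h.symm)]
    simp
  · intro h
    exact absurd (Finset.mem_univ _) h

theorem coef_lf {R : Subring ℂ} {A : GMat κ ι G} (hA : Coef R A) : Coef R (lf G' A) :=
  fun k i h => coef_mapDomain _ _ (hA k.1 i.1) h

theorem coef_rt {R : Subring ℂ} {a : G' →₀ ℂ} (ha : ∀ g, a g ∈ R) : Coef R (rt ι G a) := by
  classical
  intro p q h
  unfold rt
  split_ifs
  · exact coef_mapDomain _ _ ha h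
  · exact R.zero_mem

theorem mem_lf (A : GMat κ ι G) (x : L2 ((ι × Unit) × (G × G'))) :
    x ∈ kerA (lf G' A) ↔ ∀ g', sl1 ι G () g' x ∈ kerA A := by
  constructor
  · intro h g' k g
    have := h (k, ()) (g, g')
    rw [act_lf] at this
    exact this
  · rintro h ⟨k, ⟨⟩⟩ ⟨g, g'⟩
    rw [act_lf]
    exact h g' k g

theorem mem_rt (a : G' →₀ ℂ) (x : L2 ((ι × Unit) × (G × G'))) :
    x ∈ kerA (rt ι G a) ↔ ∀ i g, sl2 Unit G' i g x ∈ kerA (fun _ _ => a : GMat Unit Unit G') := by
  constructor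
  · rintro h i g ⟨⟩ g'
    have := h (i, ()) (g, g')
    rw [act_rt] at this
    unfold act
    rw [Fintype.sum_unique]
    exact this
  · rintro h ⟨i, ⟨⟩⟩ ⟨g, g'⟩
    rw [act_rt]
    have := h i g () g'
    unfold act at this
    rw [Fintype.sum_unique] at this
    exact this

theorem kerA_zero : kerA (fun _ _ => 0 : GMat κ ι G) = ⊤ := by
  rw [eq_top_iff]
  intro x _ k g
  unfold act
  simp

theorem ker_inf (A : GMat κ ι G) (a : G' →₀ ℂ) :
    kerA (lf G' A) ⊓ kerA (rt ι G a) = kerA (BC.ext A (fun _ _ => a : GMat Unit Unit G')) := by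
  ext x
  rw [Submodule.mem_inf, mem_lf, mem_rt, mem_ext_iff]
  constructor
  · rintro ⟨h1, h2⟩
    exact ⟨fun _ g' => h1 g', h2⟩
  · rintro ⟨h1, h2⟩
    exact ⟨fun g' => h1 () g', h2⟩

theorem vdim_lf (A : GMat κ ι G) : vdim (kerA (lf G' A)) = vdim (kerA A) := by
  have h1 : kerA (lf G' A) = kerA (BC.ext A (fun _ _ => 0 : GMat Unit Unit G')) := by
    rw [← ker_inf A (0 : G' →₀ ℂ)]
    symm
    rw [inf_eq_left]
    intro x _
    rw [mem_rt]
    intro i g
    rw [show (fun _ _ => (0 : G' →₀ ℂ) : GMat Unit Unit G') = (fun _ _ => 0) from rfl, kerA_zero]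
    trivial
  rw [h1, vdim_ext, kerA_zero, vdim_top, Fintype.card_unit, Nat.cast_one, mul_one]

theorem vdim_rt (a : G' →₀ ℂ) : vdim (kerA (rt ι G a)) =
    Fintype.card ι * vdim (kerA (fun _ _ => a : GMat Unit Unit G')) := by
  have h1 : kerA (rt ι G a) = kerA (BC.ext (fun _ _ => 0 : GMat Unit ι G)
      (fun _ _ => a : GMat Unit Unit G')) := by
    rw [← ker_inf (fun _ _ => 0 : GMat Unit ι G) a]
    symm
    rw [inf_eq_right]
    intro x _
    rw [mem_lf]
    intro g'
    rw [kerA_zero]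
    trivial
  rw [h1, vdim_ext, kerA_zero, vdim_top]

/-- the two factors commute -/
theorem comm (A : GMat κ ι G) (a : G' →₀ ℂ) (x : L2 ((ι × Unit) × (G × G')))
    (hx : op (lf G' A) x = 0) : op (lf G' A) (op (rt ι G a) x) = 0 := by
  have h0 : ∀ k g g', ∑ i, (A k i).sum (fun h c => c * x ((i, ()), (g * h, g'))) = 0 := by
    intro k g g'
    have h1 : op (lf G' A) x ((k, ()), (g, g')) = 0 := by rw [hx]; rfl
    rw [op_apply, act_lf] at h1
    exact h1
  ext ⟨⟨k, ⟨⟩⟩, ⟨g, g'⟩⟩
  rw [op_apply, act_lf]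
  unfold act
  have e1 : ∀ i, (A k i).sum (fun h c => c * (op (rt ι G a) x) ((i, ()), (g * h, g')))
      = a.sum fun h' c' => c' * (A k i).sum fun h c => c * x ((i, ()), (g * h, g' * h')) := by
    intro i
    simp only [Finsupp.sum, Finset.mul_sum]
    rw [Finset.sum_comm]
    refine Finset.sum_congr rfl fun h _ => ?_
    rw [op_apply, act_rt, Finsupp.sum, Finset.mul_sum]
    refine Finset.sum_congr rfl fun h' _ => ?_
    ring
  show ∑ i, (A k i).sum (fun h c => c * (op (rt ι G a) x) ((i, ()), (g * h, g'))) = 0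
  rw [Finset.sum_congr rfl fun i _ => e1 i]
  simp only [Finsupp.sum]
  rw [Finset.sum_comm]
  refine Finset.sum_eq_zero fun h' _ => ?_
  rw [← Finset.mul_sum]
  have := h0 k g (g' * h')
  simp only [Finsupp.sum] at this
  rw [this, mul_zero]

theorem st_rt (a : G' →₀ ℂ) : ∃ b : G' →₀ ℂ, st (rt ι G a) = rt ι G b := by
  classical
  refine ⟨a.sum fun h c => Finsupp.single h⁻¹ (conj c), ?_⟩
  funext p q
  unfold st rt
  by_cases h : p = q
  · subst h
    rw [if_pos rfl, if_pos rfl, Finsupp.sum_mapDomain_index]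
    · rw [Finsupp.sum, Finsupp.sum, Finsupp.mapDomain_finsetSum]
      refine Finset.sum_congr rfl fun h _ => ?_
      rw [Finsupp.mapDomain_single]
      simp
    · intro b; simp
    · intro b c d; simp
  · rw [if_neg h, if_neg (fun h' => h h'.symm)]
    simp

/-- the product `A ⊗ a` -/
noncomputable def pr (A : GMat κ ι G) (a : G' →₀ ℂ) : GMat (κ × Unit) (ι × Unit) (G × G') :=
  mulM (lf G' A) (rt ι G a)

theorem coef_pr {R : Subring ℂ} {A : GMat κ ι G} (hA : Coef R A) {a : G' →₀ ℂ}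
    (ha : ∀ g, a g ∈ R) : Coef R (pr A a) := coef_mulM (coef_lf hA) (coef_rt ha)

/-- **The rank is multiplicative.** -/
theorem rk_pr (A : GMat κ ι G) (a : G' →₀ ℂ) :
    rk (pr A a) = rk A * rk (fun _ _ => a : GMat Unit Unit G') := by
  set P := kerA (lf G' A) with hP
  set Q := kerA (rt ι G a) with hQ
  set K := kerA (pr A a) with hK
  have cP : IsClosed (P : Set (L2 ((ι × Unit) × (G × G')))) := isClosed_kerA _
  have cQ : IsClosed (Q : Set (L2 ((ι × Unit) × (G × G')))) := isClosed_kerA _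
  have cK : IsClosed (K : Set (L2 ((ι × Unit) × (G × G')))) := isClosed_kerA _
  have memP : ∀ x, x ∈ P ↔ op (lf G' A) x = 0 := fun x => by rw [hP, kerA_eq, mem_kr]
  have memQ : ∀ x, x ∈ Q ↔ op (rt ι G a) x = 0 := fun x => by rw [hQ, kerA_eq, mem_kr]
  have memK : ∀ x, x ∈ K ↔ op (rt ι G a) x ∈ P := fun x => by
    rw [hK, kerA_eq, mem_kr, pr, op_mulM, memP]
  have hPK : P ≤ K := fun x hx => (memK x).2 ((memP _).2 (comm A a x ((memP x).1 hx)))
  have hQK : Q ≤ K := fun x hx => (memK x).2 (by rw [(memQ x).1 hx]; exact P.zero_mem)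
  have e12 : vdim (P ⊓ Q) = vdim (kerA A) * vdim (kerA (fun _ _ => a : GMat Unit Unit G')) := by
    rw [hP, hQ, ker_inf, vdim_ext]
  have s1 := vdim_super cP (linv_kerA _) cQ (linv_kerA _) cK hPK hQK
  have s2 := vdim_diff cP cK hPK
  have s3 : K ⊓ Pᗮ ≤ Q ⊓ (P ⊓ Q)ᗮ := by
    rintro x ⟨h1, h2'⟩
    have h2 : x ∈ Pᗮ := h2'
    refine ⟨?_, Submodule.orthogonal_le inf_le_left h2⟩
    have h3 : op (rt ι G a) x ∈ P := (memK x).1 h1
    have h4 : op (rt ι G a) x ∈ Pᗮ := by
      rw [Submodule.mem_orthogonal] at h2 ⊢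
      intro y hy
      rw [← ContinuousLinearMap.adjoint_inner_left, ← op_st]
      obtain ⟨b, hb⟩ := st_rt (ι := ι) (G := G) a
      rw [hb]
      exact h2 _ ((memP _).2 (comm A b y ((memP y).1 hy)))
    have h5 := (Submodule.mem_orthogonal _ _).1 h4 _ h3
    exact (memQ x).2 (inner_self_eq_zero.1 h5)
  have s4 := vdim_mono s3
  rw [vdim_diff (isClosed_inf cP cQ) cQ inf_le_right, s2, e12] at s4
  rw [e12] at s1
  have v1 : vdim P = vdim (kerA A) := vdim_lf A
  have v2 : vdim Q = Fintype.card ι * vdim (kerA (fun _ _ => a : GMat Unit Unit G')) := vdim_rt a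
  rw [v1, v2] at s1
  rw [v1, v2] at s4
  unfold rk
  rw [← hK, Fintype.card_prod, Fintype.card_unit, mul_one, Nat.cast_one]
  linarith

end Pool.Agent.R941.AE
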