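import Pool.Agent.TH25.AD.A8
import Pool.Agent.TH57.AZ.Wedge

/-!
A generic row is injective on small subspaces; matrices of rank less than one and elements.
-/

set_option autoImplicit false
set_option linter.unusedSectionVars false

open scoped InnerProductSpace ENNReal ComplexConjugate
open Filter Topology

namespace Pool.Agent.R941.AE

open Pool.Agent.W656.VA
open Pool.Agent.TH25.AD
open Pool.Agent.H80R2
open Pool.Agent.H80R2.BC (L2 GMat vdim IsTr LInv Equi act kerA Coef)
open Pool.Agent.H812R3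

variable {ι κ G G' : Type} [Group G] [Group G'] [Fintype ι] [Fintype κ]

theorem inner_rs {X : Type} (s : X → Bool) (x y : L2 X) : ⟪rs s x, y⟫_ℂ = ⟪x, rs s y⟫_ℂ := by
  rw [lp.inner_eq_tsum, lp.inner_eq_tsum]
  refine tsum_congr fun p => ?_
  rw [rs_apply, rs_apply]
  split_ifs <;> simp

/-- stability under the cuts -/
def Cuts (inc : G →* G') (K : Submodule ℂ (L2 (ι × G'))) : Prop :=
  ∀ χ : G' → Bool, (∀ r g, χ (r * inc g) = χ r) → ∀ x ∈ K, rs (fun y : ι × G' => χ y.2) x ∈ K

theorem Cuts.orth {inc : G →* G'} {K : Submodule ℂ (L2 (ι × G'))} (h : Cuts inc K) :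
    Cuts inc Kᗮ := by
  intro χ hχ x hx
  rw [Submodule.mem_orthogonal] at hx ⊢
  intro y hy
  rw [← inner_rs]
  exact hx _ (h χ hχ y hy)

theorem cuts_kerA (inc : G →* G') (hinc : Function.Injective inc) (A : GMat κ ι G) :
    Cuts inc (kerA (BC.push inc A)) := by
  intro χ hχ x hx
  rw [mem_push_iff inc hinc] at hx ⊢
  intro g
  by_cases h : χ g = true
  · have : slice ι inc hinc g (rs (fun y : ι × G' => χ y.2) x) = slice ι inc hinc g x := by
      ext ⟨p, a⟩
      rw [slice_apply, slice_apply, rs_apply]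
      simp only
      rw [hχ, if_pos h]
    rw [this]
    exact hx g
  · have : slice ι inc hinc g (rs (fun y : ι × G' => χ y.2) x) = 0 := by
      ext ⟨p, a⟩
      rw [slice_apply, rs_apply]
      simp only
      rw [hχ, if_neg h]
      rfl
    rw [this]
    exact Submodule.zero_mem _

/-- a row of group elements -/
noncomputable def row (u : ι → G') : GMat Unit ι G' := fun _ p => Finsupp.single (u p) 1

theorem act_row (u : ι → G') (x : ι × G' → ℂ) (r : G') :
    act (row u) x () r = ∑ p, x (p, r * u p) := by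
  unfold act row
  refine Finset.sum_congr rfl fun p _ => ?_
  rw [Finsupp.sum_single_index (by simp), one_mul]

theorem coef_row {R : Subring ℂ} (u : ι → G') : Coef R (row u) := by
  intro k i h
  exact coef_single _ _ R.one_mem _

/-- the elements `u p` are generic over the subgroup `inc G` -/
def Gen (inc : G →* G') (u : ι → G') : Prop :=
  ∀ (p0 : ι) (h0 : G'), ∃ χ : G' → Bool, (∀ r g, χ (r * inc g) = χ r) ∧
    ∀ p h, (χ (h * (u p)⁻¹) ≠ χ h ↔ (p = p0 ∧ h = h0))

/-- the key computation -/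
theorem row_rs (u : ι → G') (p0 : ι) (h0 : G') (χ : G' → Bool)
    (hχ : ∀ p h, (χ (h * (u p)⁻¹) ≠ χ h ↔ (p = p0 ∧ h = h0)))
    (x : L2 (ι × G')) (hx : op (row u) x = 0) :
    ∃ ε : ℂ, ε * ε = 1 ∧ op (row u) (rs (fun y : ι × G' => χ y.2) x) =
      (ε * x (p0, h0)) • de ((), h0 * (u p0)⁻¹) := by
  classical
  have hZ : ∀ r, ∑ p, x (p, r * u p) = 0 := by
    intro r
    rw [← act_row, ← op_apply, hx]
    rfl
  set r0 := h0 * (u p0)⁻¹ with hr0
  have hr0' : r0 * u p0 = h0 := by rw [hr0]; group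
  have hflip : ∀ p r, (χ r ≠ χ (r * u p) ↔ (p = p0 ∧ r = r0)) := by
    intro p r
    have h1 := hχ p (r * u p)
    rw [mul_inv_cancel_right] at h1
    rw [h1]
    constructor
    · rintro ⟨rfl, h3⟩
      exact ⟨rfl, by rw [hr0, ← h3]; group⟩
    · rintro ⟨rfl, rfl⟩
      exact ⟨rfl, hr0'⟩
  refine ⟨if χ r0 then -1 else 1, by split_ifs <;> norm_num, ?_⟩
  ext ⟨⟨⟩, r⟩
  rw [op_apply, act_row, lp.coeFn_smul, Pi.smul_apply, smul_eq_mul]
  simp only [rs_apply]
  by_cases hqr : r = r0
  · rw [hqr, de_apply_self, mul_one]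
    have hp0 : χ (r0 * u p0) = !χ r0 :=
      Bool.eq_not.2 (Ne.symm ((hflip p0 r0).2 ⟨rfl, rfl⟩))
    have hp : ∀ p, p ≠ p0 → χ (r0 * u p) = χ r0 := by
      intro p hp
      by_contra hc
      exact hp ((hflip p r0).1 (fun h => hc h.symm)).1
    have h1 := hZ r0
    rw [← Finset.add_sum_erase _ _ (Finset.mem_univ p0)] at h1 ⊢
    have h2 : ∑ p ∈ Finset.univ.erase p0, (if χ (r0 * u p) = true then x (p, r0 * u p) else 0)
        = if χ r0 = true then ∑ p ∈ Finset.univ.erase p0, x (p, r0 * u p) else 0 := by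
      by_cases h3 : χ r0 = true
      · rw [if_pos h3]
        refine Finset.sum_congr rfl fun p hp' => ?_
        rw [hp p (Finset.ne_of_mem_erase hp'), if_pos h3]
      · rw [if_neg h3]
        refine Finset.sum_eq_zero fun p hp' => ?_
        rw [hp p (Finset.ne_of_mem_erase hp'), if_neg h3]
    rw [h2, hp0, hr0']
    rw [hr0'] at h1
    by_cases h3 : χ r0 = true
    · simp only [h3, Bool.not_true, if_true]
      rw [if_neg (by simp)]
      linear_combination h1
    · have h4 : χ r0 = false := by simpa using h3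
      simp [h4]
  · rw [de_apply_ne (by
      intro h
      simp only [Prod.mk.injEq, true_and] at h
      exact hqr h), mul_zero]
    have hp : ∀ p, χ (r * u p) = χ r := by
      intro p
      by_contra hc
      have h1 := (hflip p r).1 (fun h => hc h.symm)
      exact hqr h1.2
    simp only [hp]
    by_cases h3 : χ r = true
    · simp only [h3, if_true]
      exact hZ r
    · simp [h3]

/-- **A generic row is injective on subspaces of dimension less than one.** -/
theorem row_inj {inc : G →* G'} {u : ι → G'} (hu : Gen inc u) {K : Submodule ℂ (L2 (ι × G'))}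
    (hK : IsClosed (K : Set (L2 (ι × G')))) (hKi : LInv K) (hcut : Cuts inc K)
    (h1 : vdim K < 1) {x : L2 (ι × G')} (hx : x ∈ K) (h0 : op (row u) x = 0) : x = 0 := by
  by_contra hne
  obtain ⟨p0, h0', hx0⟩ : ∃ p h, x (p, h) ≠ 0 := by
    by_contra hc
    push Not at hc
    apply hne
    ext ⟨p, h⟩
    exact hc p h
  obtain ⟨χ, hχ1, hχ2⟩ := hu p0 h0'
  obtain ⟨ε, hε, h3⟩ := row_rs u p0 h0' χ hχ2 x h0
  set M := K.map (op (row u) : L2 (ι × G') →ₗ[ℂ] L2 (Unit × G')) with hM
  have hMi : LInv M := linv_map (equi_op _) hKi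
  have h4 : op (row u) (rs (fun y : ι × G' => χ y.2) x) ∈ M := ⟨_, hcut χ hχ1 x hx, rfl⟩
  rw [h3] at h4
  have hc : ε * x (p0, h0') ≠ 0 := by
    refine mul_ne_zero ?_ hx0
    rintro rfl
    simp at hε
  have h5 := M.smul_mem (ε * x (p0, h0'))⁻¹ h4
  rw [smul_smul, inv_mul_cancel₀ hc, one_smul] at h5
  have htop : M.topologicalClosure = ⊤ := by
    apply top_of_de
    rintro ⟨⟨⟩, r⟩
    have h6 := linv_lt hMi ((h0' * (u p0)⁻¹) * r⁻¹) h5
    rw [lt_de] at h6
    have h7 : ((h0' * (u p0)⁻¹) * r⁻¹)⁻¹ * (h0' * (u p0)⁻¹) = r := by group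
    rwa [h7] at h6
  have h8 := vdim_rank hK hKi (op (row u)) (equi_op _)
  rw [← hM, htop, vdim_top, Fintype.card_unit, Nat.cast_one] at h8
  have h9 := vdim_nonneg (K ⊓ kr (op (row u)))
  linarith

/-- a matrix of rank less than one, a generic row composed with the adjoint -/
theorem ker_row_st {inc : G →* G'} (hinc : Function.Injective inc) {u : ι → G'} (hu : Gen inc u)
    (A : GMat κ ι G) (h : (Fintype.card ι : ℝ) - vdim (kerA A) < 1) :
    kerA (mulM (row u) (st (BC.push inc A))) = kerA (st (BC.push inc A)) := by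
  ext y
  rw [kerA_eq, mem_kr, kerA_eq, mem_kr, op_mulM]
  constructor
  · intro h0
    have iK := hasProj (isClosed_kerA (BC.push inc A))
    have hv : vdim (kerA (BC.push inc A))ᗮ = Fintype.card ι - vdim (kerA A) := by
      rw [vdim_orth, vdim_push inc hinc]
    refine row_inj hu (isClosed_orth _) (linv_orth (linv_kerA _))
      (cuts_kerA inc hinc A).orth (by rw [hv]; exact h) ?_ h0
    rw [op_st, Submodule.mem_orthogonal]
    intro x hx
    rw [kerA_eq, mem_kr] at hx
    rw [ContinuousLinearMap.adjoint_inner_right, hx, inner_zero_left]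
  · intro h0
    rw [h0, map_zero]

/-- rank -/
noncomputable def rk (A : GMat κ ι G) : ℝ := Fintype.card ι - vdim (kerA A)

theorem rk_st (A : GMat κ ι G) : rk (st A) = rk A := by
  have h := vdim_ker_adjoint (op A) (equi_op A)
  rw [← op_st, ← kerA_eq, ← kerA_eq] at h
  unfold rk
  linarith

theorem rk_push (inc : G →* G') (hinc : Function.Injective inc) (A : GMat κ ι G) :
    rk (BC.push inc A) = rk A := by
  unfold rk
  rw [vdim_push inc hinc]

theorem rk_row {inc : G →* G'} (hinc : Function.Injective inc) {u : ι → G'} (hu : Gen inc u)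
    (A : GMat κ ι G) (h : rk A < 1) : rk (mulM (row u) (st (BC.push inc A))) = rk A := by
  have h1 : rk (mulM (row u) (st (BC.push inc A))) = rk (st (BC.push inc A)) := by
    unfold rk
    rw [ker_row_st hinc hu A h]
  rw [h1, rk_st, rk_push inc hinc]

/-- generic elements exist in the free product with a free group -/
theorem gen_coprod (G : Type) [Group G] (m : ℕ) :
    Gen (Monoid.Coprod.inl : G →* Monoid.Coprod G (FreeGroup (Fin m)))
      (fun p : Fin m => (Monoid.Coprod.inr : FreeGroup (Fin m) →* Monoid.Coprod G (FreeGroup (Fin m)))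
        (FreeGroup.of p)) := by
  intro p0 h0
  obtain ⟨χ, h1, h2⟩ := BC.generic_coprod G m (Equiv.prodPUnit (Fin m)) p0 () h0
  refine ⟨χ, h1, fun p h => ?_⟩
  have h3 := h2 p () h
  constructor
  · intro h4
    have h5 := h3.1 h4
    exact ⟨h5.1, h5.2.2⟩
  · intro h4
    exact h3.2 ⟨h4.1, rfl, h4.2⟩

/-- **From matrices of rank less than one to elements.** -/
theorem exists_element {R : Subring ℂ} (hR : ∀ c ∈ R, conj c ∈ R) {m n : ℕ}
    (A : GMat (Fin n) (Fin m) G) (hA : Coef R A) (h : rk A < 1) :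
    ∃ e : GMat Unit Unit (Monoid.Coprod (Monoid.Coprod G (FreeGroup (Fin m)))
        (FreeGroup (Fin n))), Coef R e ∧ rk e = rk A := by
  obtain ⟨B, hBc, h1⟩ : ∃ B : GMat Unit (Fin n) (Monoid.Coprod G (FreeGroup (Fin m))),
      Coef R B ∧ rk B = rk A :=
    ⟨_, coef_mulM (coef_row _) (coef_st hR (coef_push _ _ hA)),
      rk_row Monoid.Coprod.inl_injective (gen_coprod G m) A h⟩
  exact ⟨_, coef_mulM (coef_row _) (coef_st hR (coef_push _ _ hBc)),
    (rk_row Monoid.Coprod.inl_injective (gen_coprod _ n) B (by rw [h1]; exact h)).trans h1⟩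

end Pool.Agent.R941.AE
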